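import Pool.Agent.H88.NR.Lib

universe u

namespace Pool.NR

open H88

theorem i22 (_hb : BASStmt.{u}) : I22Stmt.{u} := by
  intro p hp R _ π B hR hS hT
  have hp' : p.Prime := hp.out
  obtain ⟨g, hg, hP, hM⟩ := hT
  have P0 : p • g 0 = (π 0 0).val • g 2 + (π 0 1).val • g 3 := by
    simpa [tab22, Fin.sum_univ_four] using hP 0
  have P1 : p • g 1 = (π 1 0).val • g 2 + (π 1 1).val • g 3 := by
    simpa [tab22, Fin.sum_univ_four] using hP 1
  have P2 : p • g 2 = 0 := by simpa [tab22, Fin.sum_univ_four] using hP 2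
  have P3 : p • g 3 = 0 := by simpa [tab22, Fin.sum_univ_four] using hP 3
  have M00 : g 0 * g 0 = (B 0 0 0).val • g 2 + (B 1 0 0).val • g 3 := by
    simpa [tab22, Fin.sum_univ_four] using hM 0 0
  have M01 : g 0 * g 1 = (B 0 0 1).val • g 2 + (B 1 0 1).val • g 3 := by
    simpa [tab22, Fin.sum_univ_four] using hM 0 1
  have M10 : g 1 * g 0 = (B 0 1 0).val • g 2 + (B 1 1 0).val • g 3 := by
    simpa [tab22, Fin.sum_univ_four] using hM 1 0
  have M11 : g 1 * g 1 = (B 0 1 1).val • g 2 + (B 1 1 1).val • g 3 := by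
    simpa [tab22, Fin.sum_univ_four] using hM 1 1
  have M02 : g 0 * g 2 = 0 := by simpa [tab22, Fin.sum_univ_four] using hM 0 2
  have M03 : g 0 * g 3 = 0 := by simpa [tab22, Fin.sum_univ_four] using hM 0 3
  have M12 : g 1 * g 2 = 0 := by simpa [tab22, Fin.sum_univ_four] using hM 1 2
  have M13 : g 1 * g 3 = 0 := by simpa [tab22, Fin.sum_univ_four] using hM 1 3
  have M20 : g 2 * g 0 = 0 := by simpa [tab22, Fin.sum_univ_four] using hM 2 0
  have M21 : g 2 * g 1 = 0 := by simpa [tab22, Fin.sum_univ_four] using hM 2 1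
  have M22 : g 2 * g 2 = 0 := by simpa [tab22, Fin.sum_univ_four] using hM 2 2
  have M23 : g 2 * g 3 = 0 := by simpa [tab22, Fin.sum_univ_four] using hM 2 3
  have M30 : g 3 * g 0 = 0 := by simpa [tab22, Fin.sum_univ_four] using hM 3 0
  have M31 : g 3 * g 1 = 0 := by simpa [tab22, Fin.sum_univ_four] using hM 3 1
  have M32 : g 3 * g 2 = 0 := by simpa [tab22, Fin.sum_univ_four] using hM 3 2
  have M33 : g 3 * g 3 = 0 := by simpa [tab22, Fin.sum_univ_four] using hM 3 3
  have comb : ∀ (k : ℕ), k ≤ 2 → ∀ m n : ℕ, m • g 2 + n • g 3 ∈ Sg g k := by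
    intro k hk m n
    exact (Sg g k).add_mem ((Sg g k).nsmul_mem (mem_Sg g hk) _)
      ((Sg g k).nsmul_mem (mem_Sg g (hk.trans (by decide))) _)
  have hmono : ∀ i : Fin 4, p • g i ∈ Sg g (i.val + 1) := by
    intro i
    fin_cases i
    · show p • g 0 ∈ _
      rw [P0]; exact comb _ (by decide) _ _
    · show p • g 1 ∈ _
      rw [P1]; exact comb _ (by decide) _ _
    · show p • g 2 ∈ _
      rw [P2]; exact (Sg g _).zero_mem
    · show p • g 3 ∈ _
      rw [P3]; exact (Sg g _).zero_mem
  obtain ⟨-, c2, -⟩ := card_Sg hp' hR g hg hmono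
  have hP2 : ∀ i : Fin 4, p • g i ∈ Sg g 2 := by
    intro i
    fin_cases i
    · show p • g 0 ∈ _
      rw [P0]; exact comb _ le_rfl _ _
    · show p • g 1 ∈ _
      rw [P1]; exact comb _ le_rfl _ _
    · show p • g 2 ∈ _
      rw [P2]; exact (Sg g _).zero_mem
    · show p • g 3 ∈ _
      rw [P3]; exact (Sg g _).zero_mem
  have hM2 : ∀ i j : Fin 4, g i * g j ∈ Sg g 2 := by
    intro i j
    fin_cases i <;> fin_cases j <;>
      simp only [Fin.zero_eta, Fin.mk_one, Fin.reduceFinMk, M00, M01, M02, M03, M10, M11, M12,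
        M13, M20, M21, M22, M23, M30, M31, M32, M33] <;>
      first | exact (Sg g 2).zero_mem | exact comb _ le_rfl _ _
  -- the submodule of coefficient vectors which lie in `Dd p ⊤`
  have key : g 2 ∈ Dd p (⊤ : AddSubgroup R) ∧ g 3 ∈ Dd p (⊤ : AddSubgroup R) := by
    have vadd : ∀ (z : R), p • z = 0 → ∀ a b : ZMod p, (a + b).val • z = a.val • z + b.val • z := by
      intro z hz a b
      rw [ZMod.val_add, ← add_smul]
      conv_rhs => rw [← Nat.mod_add_div (a.val + b.val) p, add_smul, mul_comm, mul_smul, hz,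
        smul_zero, add_zero]
    have vmul : ∀ (z : R), p • z = 0 → ∀ a b : ZMod p, (a * b).val • z = a.val • (b.val • z) := by
      intro z hz a b
      rw [ZMod.val_mul, ← mul_smul]
      conv_rhs => rw [← Nat.mod_add_div (a.val * b.val) p, add_smul,
        mul_comm p (a.val * b.val / p), mul_smul, hz, smul_zero, add_zero]
    let W : Submodule (ZMod p) (Fin 2 → ZMod p) :=
      { carrier := {a | (a 0).val • g 2 + (a 1).val • g 3 ∈ Dd p (⊤ : AddSubgroup R)}
        add_mem' := by
          intro a b ha hb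
          have := (Dd p (⊤ : AddSubgroup R)).add_mem ha hb
          show ((a + b) 0).val • g 2 + ((a + b) 1).val • g 3 ∈ Dd p (⊤ : AddSubgroup R)
          rw [Pi.add_apply, Pi.add_apply, vadd _ P2, vadd _ P3]
          convert this using 1
          abel
        zero_mem' := by
          show ((0 : Fin 2 → ZMod p) 0).val • g 2 + ((0 : Fin 2 → ZMod p) 1).val • g 3 ∈
            Dd p (⊤ : AddSubgroup R)
          simp only [Pi.zero_apply, ZMod.val_zero, zero_smul, add_zero]
          exact AddSubgroup.zero_mem _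
        smul_mem' := by
          intro r a ha
          have := (Dd p (⊤ : AddSubgroup R)).nsmul_mem ha r.val
          show ((r • a) 0).val • g 2 + ((r • a) 1).val • g 3 ∈ Dd p (⊤ : AddSubgroup R)
          rw [Pi.smul_apply, Pi.smul_apply, smul_eq_mul, smul_eq_mul, vmul _ P2, vmul _ P3,
            ← smul_add]
          exact this }
    have hW : ∀ a : Fin 2 → ZMod p, a ∈ W ↔
      (a 0).val • g 2 + (a 1).val • g 3 ∈ Dd p (⊤ : AddSubgroup R) := fun a => Iff.rfl
    have hπ : ∀ i : Fin 2, π i ∈ W := by
      intro i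
      rw [hW]
      fin_cases i
      · show (π 0 0).val • g 2 + (π 0 1).val • g 3 ∈ _
        rw [← P0]; exact Dd_p (AddSubgroup.mem_top _)
      · show (π 1 0).val • g 2 + (π 1 1).val • g 3 ∈ _
        rw [← P1]; exact Dd_p (AddSubgroup.mem_top _)
    have hB : ∀ i j : Fin 2, (fun l => B l i j) ∈ W := by
      intro i j
      rw [hW]
      fin_cases i <;> fin_cases j
      · show (B 0 0 0).val • g 2 + (B 1 0 0).val • g 3 ∈ _
        rw [← M00]; exact Dd_l (AddSubgroup.mem_top _) _
      · show (B 0 0 1).val • g 2 + (B 1 0 1).val • g 3 ∈ _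
        rw [← M01]; exact Dd_l (AddSubgroup.mem_top _) _
      · show (B 0 1 0).val • g 2 + (B 1 1 0).val • g 3 ∈ _
        rw [← M10]; exact Dd_l (AddSubgroup.mem_top _) _
      · show (B 0 1 1).val • g 2 + (B 1 1 1).val • g 3 ∈ _
        rw [← M11]; exact Dd_l (AddSubgroup.mem_top _) _
    have hWtop : W = ⊤ := by
      by_contra hne
      obtain ⟨f, hf, hfW⟩ := Submodule.exists_le_ker_of_lt_top W (lt_top_iff_ne_top.mpr hne)
      have hfr : ∀ a : Fin 2 → ZMod p, f a = ∑ l, f (Pi.single l 1) * a l := by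
        intro a
        conv_lhs => rw [← Finset.univ_sum_single a, map_sum]
        refine Finset.sum_congr rfl fun l _ => ?_
        have : (Pi.single l (a l) : Fin 2 → ZMod p) = a l • Pi.single l 1 := by
          ext k
          by_cases hk : k = l
          · subst hk; simp
          · simp [Pi.single_eq_of_ne hk]
        rw [this, map_smul, smul_eq_mul, mul_comm]
      have h0 := hS (fun l => f (Pi.single l 1)) (fun i => by
          rw [← hfr]; exact hfW (hπ i)) (fun i j => by
          rw [← hfr (fun l => B l i j)]; exact hfW (hB i j))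
      apply hf
      ext a
      have h1 := congrFun h0
      simp only [LinearMap.coe_comp, LinearMap.coe_single, Function.comp_apply,
        LinearMap.zero_apply]
      exact h1 a
    have e0 : (Pi.single 0 1 : Fin 2 → ZMod p) ∈ W := by rw [hWtop]; trivial
    have e1 : (Pi.single 1 1 : Fin 2 → ZMod p) ∈ W := by rw [hWtop]; trivial
    rw [hW] at e0 e1
    have : Fact (1 < p) := ⟨hp'.one_lt⟩
    constructor
    · simpa [ZMod.val_one] using e0
    · simpa [ZMod.val_one] using e1
  have hD : Dd p (⊤ : AddSubgroup R) = Sg g 2 := by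
    apply le_antisymm
    · rw [← Sg_zero g hg]
      exact Dd_le hg 0 _ (fun i _ => hP2 i) (fun i _ j => hM2 j i) (fun i _ j => hM2 i j)
    · refine Sg_le g 2 _ fun i hi => ?_
      fin_cases i
      · exact absurd hi (by decide)
      · exact absurd hi (by decide)
      · exact key.1
      · exact key.2
  have hD2 : Dd p (Dd p (⊤ : AddSubgroup R)) = ⊥ := by
    rw [hD, eq_bot_iff]
    refine Dd_le hg 2 _ (fun i hi => ?_) (fun i hi j => ?_) (fun i hi j => ?_)
    · fin_cases i
      · exact absurd hi (by decide)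
      · exact absurd hi (by decide)
      · show p • g 2 ∈ _
        rw [P2]; exact AddSubgroup.zero_mem _
      · show p • g 3 ∈ _
        rw [P3]; exact AddSubgroup.zero_mem _
    · fin_cases i
      · exact absurd hi (by decide)
      · exact absurd hi (by decide)
      all_goals
        fin_cases j <;>
        simp only [Fin.zero_eta, Fin.mk_one, Fin.reduceFinMk, M02, M12, M22, M32, M03, M13,
          M23, M33] <;>
        exact AddSubgroup.zero_mem _
    · fin_cases i
      · exact absurd hi (by decide)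
      · exact absurd hi (by decide)
      all_goals
        fin_cases j <;>
        simp only [Fin.zero_eta, Fin.mk_one, Fin.reduceFinMk, M20, M21, M22, M23, M30, M31,
          M32, M33] <;>
        exact AddSubgroup.zero_mem _
  exact ⟨by rw [hD, c2], by rw [hD2, AddSubgroup.card_bot]⟩

end Pool.NR
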