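import Pool.Agent.H88.NR.Lib

universe u

namespace Pool.NR

open H88

theorem i31 (_hb : BASStmt.{u}) : I31Stmt.{u} := by
  intro p hp R _ π B hR hT
  have hp' : p.Prime := hp.out
  obtain ⟨g, hg, hP, hM⟩ := hT
  have P0 : p • g 0 = (π 0).val • g 3 := by
    simpa [tab31, Fin.sum_univ_four] using hP 0
  have P1 : p • g 1 = (π 1).val • g 3 := by
    simpa [tab31, Fin.sum_univ_four] using hP 1
  have P2 : p • g 2 = (π 2).val • g 3 := by
    simpa [tab31, Fin.sum_univ_four] using hP 2
  have P3 : p • g 3 = 0 := by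
    simpa [tab31, Fin.sum_univ_four] using hP 3
  have hM3 : ∀ i j : Fin 3, g i.castSucc * g j.castSucc = (B i j).val • g 3 := by
    intro i j
    have := hM i.castSucc j.castSucc
    fin_cases i <;> fin_cases j <;> simpa [tab31, Fin.sum_univ_four] using this
  have hMz : ∀ i j : Fin 4, (i = 3 ∨ j = 3) → g i * g j = 0 := by
    intro i j hij
    have := hM i j
    rcases hij with rfl | rfl
    · fin_cases j <;> simpa [tab31, Fin.sum_univ_four] using this
    · fin_cases i <;> simpa [tab31, Fin.sum_univ_four] using this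
  have hM' : ∀ i j : Fin 4, g i * g j ∈ Sg g 3 := by
    intro i j
    rcases Fin.eq_castSucc_or_eq_last i with ⟨i', rfl⟩ | rfl
    · rcases Fin.eq_castSucc_or_eq_last j with ⟨j', rfl⟩ | rfl
      · rw [hM3]
        exact (Sg g 3).nsmul_mem (mem_Sg g le_rfl) _
      · rw [show g i'.castSucc * g (Fin.last 3) = 0 from hMz _ 3 (Or.inr rfl)]
        exact (Sg g 3).zero_mem
    · rw [show g (Fin.last 3) * g j = 0 from hMz 3 _ (Or.inl rfl)]
      exact (Sg g 3).zero_mem
  have hz : ∀ n : ℕ, n • g 3 ∈ Sg g 3 := fun n => (Sg g 3).nsmul_mem (mem_Sg g le_rfl) _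
  have hP' : ∀ i : Fin 4, p • g i ∈ Sg g 3 := by
    intro i
    fin_cases i
    · show p • g 0 ∈ _
      rw [P0]; exact hz _
    · show p • g 1 ∈ _
      rw [P1]; exact hz _
    · show p • g 2 ∈ _
      rw [P2]; exact hz _
    · show p • g 3 ∈ _
      rw [P3]; exact (Sg g 3).zero_mem
  have hmono : ∀ i : Fin 4, p • g i ∈ Sg g (i.val + 1) := by
    intro i
    fin_cases i
    · show p • g 0 ∈ _
      rw [P0]; exact (Sg g _).nsmul_mem (mem_Sg g (by decide)) _
    · show p • g 1 ∈ _
      rw [P1]; exact (Sg g _).nsmul_mem (mem_Sg g (by decide)) _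
    · show p • g 2 ∈ _
      rw [P2]; exact (Sg g _).nsmul_mem (mem_Sg g (by decide)) _
    · show p • g 3 ∈ _
      rw [P3]; exact (Sg g _).zero_mem
  obtain ⟨c3, -, -⟩ := card_Sg hp' hR g hg hmono
  constructor
  · intro hne
    have hle : Dd p (⊤ : AddSubgroup R) ≤ Sg g 3 := by
      rw [← Sg_zero g hg]
      exact Dd_le hg 0 _ (fun i _ => hP' i) (fun i _ j => hM' j i) (fun i _ j => hM' i j)
    have hge : Sg g 3 ≤ Dd p (⊤ : AddSubgroup R) := by
      refine Sg_le g 3 _ fun i hi => ?_
      have : i = 3 := by omega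
      subst this
      rcases hne with hπ | hB
      · have : ∃ i, π i ≠ 0 := by
          by_contra h
          push Not at h
          exact hπ (funext h)
        obtain ⟨i, hi⟩ := this
        refine mem_of_val_smul P3 hi ?_
        have h2 : p • g i.castSucc = (π i).val • g 3 := by
          fin_cases i
          · exact P0
          · exact P1
          · exact P2
        rw [← h2]
        exact Dd_p (AddSubgroup.mem_top _)
      · have : ∃ i j, B i j ≠ 0 := by
          by_contra h
          push Not at h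
          exact hB (funext fun i => funext fun j => h i j)
        obtain ⟨i, j, hij⟩ := this
        refine mem_of_val_smul P3 hij ?_
        rw [← hM3]
        exact Dd_l (AddSubgroup.mem_top _) _
    rw [le_antisymm hle hge, c3]
  · intro hπ hB
    have hle : Dd p (⊤ : AddSubgroup R) ≤ ⊥ := by
      rw [← Sg_zero g hg]
      have hMb : ∀ i j : Fin 4, g i * g j ∈ (⊥ : AddSubgroup R) := by
        intro i j
        rcases Fin.eq_castSucc_or_eq_last i with ⟨i', rfl⟩ | rfl
        · rcases Fin.eq_castSucc_or_eq_last j with ⟨j', rfl⟩ | rfl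
          · rw [hM3, hB]; simp
          · rw [show g i'.castSucc * g (Fin.last 3) = 0 from hMz _ 3 (Or.inr rfl)]
            exact AddSubgroup.zero_mem _
        · rw [show g (Fin.last 3) * g j = 0 from hMz 3 _ (Or.inl rfl)]
          exact AddSubgroup.zero_mem _
      have hPb : ∀ i : Fin 4, p • g i ∈ (⊥ : AddSubgroup R) := by
        intro i
        fin_cases i
        · show p • g 0 ∈ _
          rw [P0, hπ]; simp
        · show p • g 1 ∈ _
          rw [P1, hπ]; simp
        · show p • g 2 ∈ _
          rw [P2, hπ]; simp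
        · show p • g 3 ∈ _
          rw [P3]; exact AddSubgroup.zero_mem _
      exact Dd_le hg 0 _ (fun i _ => hPb i) (fun i _ j => hMb j i) (fun i _ j => hMb i j)
    rw [le_bot_iff.mp hle, AddSubgroup.card_bot]

end Pool.NR
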