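import Pool.Agent.H88.NR.Lib

universe u

namespace Pool.NR

open H88

theorem i4a (_hb : BASStmt.{u}) : I4AStmt.{u} := by
  intro p hp R _ L b c d hR hT
  have hp' : p.Prime := hp.out
  obtain ⟨g, hg, hP, hM⟩ := hT
  have P0 : p • g 0 = g 2 := by simpa [tab4a, Fin.sum_univ_four] using hP 0
  have P1 : p • g 1 = 0 := by simpa [tab4a, Fin.sum_univ_four] using hP 1
  have P2 : p • g 2 = g 3 := by simpa [tab4a, Fin.sum_univ_four] using hP 2
  have P3 : p • g 3 = 0 := by simpa [tab4a, Fin.sum_univ_four] using hP 3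
  have M00 : g 0 * g 0 = L.val • g 2 := by simpa [tab4a, Fin.sum_univ_four] using hM 0 0
  have M01 : g 0 * g 1 = b.val • g 3 := by simpa [tab4a, Fin.sum_univ_four] using hM 0 1
  have M02 : g 0 * g 2 = L.val • g 3 := by simpa [tab4a, Fin.sum_univ_four] using hM 0 2
  have M03 : g 0 * g 3 = 0 := by simpa [tab4a, Fin.sum_univ_four] using hM 0 3
  have M10 : g 1 * g 0 = c.val • g 3 := by simpa [tab4a, Fin.sum_univ_four] using hM 1 0
  have M11 : g 1 * g 1 = d.val • g 3 := by simpa [tab4a, Fin.sum_univ_four] using hM 1 1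
  have M12 : g 1 * g 2 = 0 := by simpa [tab4a, Fin.sum_univ_four] using hM 1 2
  have M13 : g 1 * g 3 = 0 := by simpa [tab4a, Fin.sum_univ_four] using hM 1 3
  have M20 : g 2 * g 0 = L.val • g 3 := by simpa [tab4a, Fin.sum_univ_four] using hM 2 0
  have M21 : g 2 * g 1 = 0 := by simpa [tab4a, Fin.sum_univ_four] using hM 2 1
  have M22 : g 2 * g 2 = 0 := by simpa [tab4a, Fin.sum_univ_four] using hM 2 2
  have M23 : g 2 * g 3 = 0 := by simpa [tab4a, Fin.sum_univ_four] using hM 2 3
  have M30 : g 3 * g 0 = 0 := by simpa [tab4a, Fin.sum_univ_four] using hM 3 0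
  have M31 : g 3 * g 1 = 0 := by simpa [tab4a, Fin.sum_univ_four] using hM 3 1
  have M32 : g 3 * g 2 = 0 := by simpa [tab4a, Fin.sum_univ_four] using hM 3 2
  have M33 : g 3 * g 3 = 0 := by simpa [tab4a, Fin.sum_univ_four] using hM 3 3
  have w2 : ∀ n : ℕ, n • g 2 ∈ Sg g 2 := fun n => (Sg g 2).nsmul_mem (mem_Sg g le_rfl) _
  have z2 : ∀ n : ℕ, n • g 3 ∈ Sg g 2 := fun n =>
    (Sg g 2).nsmul_mem (mem_Sg g (by decide)) _
  have z3 : ∀ n : ℕ, n • g 3 ∈ Sg g 3 := fun n => (Sg g 3).nsmul_mem (mem_Sg g le_rfl) _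
  have hmono : ∀ i : Fin 4, p • g i ∈ Sg g (i.val + 1) := by
    intro i
    fin_cases i
    · show p • g 0 ∈ _
      rw [P0]; exact mem_Sg g (by decide)
    · show p • g 1 ∈ _
      rw [P1]; exact (Sg g _).zero_mem
    · show p • g 2 ∈ _
      rw [P2]; exact mem_Sg g (by decide)
    · show p • g 3 ∈ _
      rw [P3]; exact (Sg g _).zero_mem
  obtain ⟨c3, c2, -⟩ := card_Sg hp' hR g hg hmono
  have hP2 : ∀ i : Fin 4, p • g i ∈ Sg g 2 := by
    intro i
    fin_cases i
    · show p • g 0 ∈ _
      rw [P0]; exact mem_Sg g (by decide)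
    · show p • g 1 ∈ _
      rw [P1]; exact (Sg g _).zero_mem
    · show p • g 2 ∈ _
      rw [P2]; exact mem_Sg g (by decide)
    · show p • g 3 ∈ _
      rw [P3]; exact (Sg g _).zero_mem
  have hM2 : ∀ i j : Fin 4, g i * g j ∈ Sg g 2 := by
    intro i j
    fin_cases i <;> fin_cases j <;>
      simp only [Fin.zero_eta, Fin.mk_one, Fin.reduceFinMk, M00, M01, M02, M03, M10, M11, M12,
        M13, M20, M21, M22, M23, M30, M31, M32, M33] <;>
      first | exact (Sg g 2).zero_mem | exact w2 _ | exact z2 _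
  have hD : Dd p (⊤ : AddSubgroup R) = Sg g 2 := by
    apply le_antisymm
    · rw [← Sg_zero g hg]
      exact Dd_le hg 0 _ (fun i _ => hP2 i) (fun i _ j => hM2 j i) (fun i _ j => hM2 i j)
    · refine Sg_le g 2 _ fun i hi => ?_
      fin_cases i
      · exact absurd hi (by decide)
      · exact absurd hi (by decide)
      · show g 2 ∈ _
        rw [← P0]; exact Dd_p trivial
      · show g 3 ∈ _
        rw [← P2]; exact Dd_p trivial
  have hD2 : Dd p (Dd p (⊤ : AddSubgroup R)) = Sg g 3 := by
    rw [hD]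
    apply le_antisymm
    · refine Dd_le hg 2 _ (fun i hi => ?_) (fun i hi j => ?_) (fun i hi j => ?_)
      · fin_cases i
        · exact absurd hi (by decide)
        · exact absurd hi (by decide)
        · show p • g 2 ∈ _
          rw [P2]; exact mem_Sg g (by decide)
        · show p • g 3 ∈ _
          rw [P3]; exact (Sg g _).zero_mem
      · fin_cases i
        · exact absurd hi (by decide)
        · exact absurd hi (by decide)
        all_goals
          fin_cases j <;>
          simp only [Fin.zero_eta, Fin.mk_one, Fin.reduceFinMk, M02, M12, M22, M32, M03, M13,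
            M23, M33] <;>
          first | exact (Sg g 3).zero_mem | exact z3 _
      · fin_cases i
        · exact absurd hi (by decide)
        · exact absurd hi (by decide)
        all_goals
          fin_cases j <;>
          simp only [Fin.zero_eta, Fin.mk_one, Fin.reduceFinMk, M20, M21, M22, M23, M30, M31,
            M32, M33] <;>
          first | exact (Sg g 3).zero_mem | exact z3 _
    · refine Sg_le g 3 _ fun i hi => ?_
      have : i = 3 := by omega
      subst this
      rw [← P2]
      exact Dd_p (mem_Sg g le_rfl)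
  refine ⟨by rw [hD, c2], by rw [hD2, c3], g 0, ?_⟩
  intro h0
  have h1 : g 3 = 0 := by
    rw [← P2, ← P0, smul_smul, ← pow_two, h0]
  have h2 : Sg g 3 = ⊥ := by
    rw [eq_bot_iff]
    refine Sg_le g 3 _ fun i hi => ?_
    have : i = 3 := by omega
    subst this
    rw [h1]; exact AddSubgroup.zero_mem _
  rw [h2, AddSubgroup.card_bot] at c3
  exact hp'.one_lt.ne c3

end Pool.NR
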