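import Pool.Agent.H88.NR.Lib

universe u

namespace Pool.NR

open H88

theorem i4b (_hb : BASStmt.{u}) : I4BStmt.{u} := by
  intro p hp R _ b c d e hR hT
  have hp' : p.Prime := hp.out
  obtain ⟨g, hg, hP, hM⟩ := hT
  have P0 : p • g 0 = d.val • g 3 := by simpa [tab4b, Fin.sum_univ_four] using hP 0
  have P1 : p • g 1 = e.val • g 3 := by simpa [tab4b, Fin.sum_univ_four] using hP 1
  have P2 : p • g 2 = 0 := by simpa [tab4b, Fin.sum_univ_four] using hP 2
  have P3 : p • g 3 = 0 := by simpa [tab4b, Fin.sum_univ_four] using hP 3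
  have M00 : g 0 * g 0 = g 2 := by simpa [tab4b, Fin.sum_univ_four] using hM 0 0
  have M01 : g 0 * g 1 = 0 := by simpa [tab4b, Fin.sum_univ_four] using hM 0 1
  have M02 : g 0 * g 2 = g 3 := by simpa [tab4b, Fin.sum_univ_four] using hM 0 2
  have M03 : g 0 * g 3 = 0 := by simpa [tab4b, Fin.sum_univ_four] using hM 0 3
  have M10 : g 1 * g 0 = b.val • g 3 := by simpa [tab4b, Fin.sum_univ_four] using hM 1 0
  have M11 : g 1 * g 1 = c.val • g 3 := by simpa [tab4b, Fin.sum_univ_four] using hM 1 1
  have M12 : g 1 * g 2 = 0 := by simpa [tab4b, Fin.sum_univ_four] using hM 1 2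
  have M13 : g 1 * g 3 = 0 := by simpa [tab4b, Fin.sum_univ_four] using hM 1 3
  have M20 : g 2 * g 0 = g 3 := by simpa [tab4b, Fin.sum_univ_four] using hM 2 0
  have M21 : g 2 * g 1 = 0 := by simpa [tab4b, Fin.sum_univ_four] using hM 2 1
  have M22 : g 2 * g 2 = 0 := by simpa [tab4b, Fin.sum_univ_four] using hM 2 2
  have M23 : g 2 * g 3 = 0 := by simpa [tab4b, Fin.sum_univ_four] using hM 2 3
  have M30 : g 3 * g 0 = 0 := by simpa [tab4b, Fin.sum_univ_four] using hM 3 0
  have M31 : g 3 * g 1 = 0 := by simpa [tab4b, Fin.sum_univ_four] using hM 3 1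
  have M32 : g 3 * g 2 = 0 := by simpa [tab4b, Fin.sum_univ_four] using hM 3 2
  have M33 : g 3 * g 3 = 0 := by simpa [tab4b, Fin.sum_univ_four] using hM 3 3
  have w2 : g 2 ∈ Sg g 2 := mem_Sg g le_rfl
  have w3 : g 3 ∈ Sg g 2 := mem_Sg g (by decide)
  have z2 : ∀ n : ℕ, n • g 3 ∈ Sg g 2 := fun n =>
    (Sg g 2).nsmul_mem (mem_Sg g (by decide)) _
  have z3 : ∀ n : ℕ, n • g 3 ∈ Sg g 3 := fun n => (Sg g 3).nsmul_mem (mem_Sg g le_rfl) _
  have w33 : g 3 ∈ Sg g 3 := mem_Sg g le_rfl
  have hmono : ∀ i : Fin 4, p • g i ∈ Sg g (i.val + 1) := by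
    intro i
    fin_cases i
    · show p • g 0 ∈ _
      rw [P0]; exact (Sg g _).nsmul_mem (mem_Sg g (by decide)) _
    · show p • g 1 ∈ _
      rw [P1]; exact (Sg g _).nsmul_mem (mem_Sg g (by decide)) _
    · show p • g 2 ∈ _
      rw [P2]; exact (Sg g _).zero_mem
    · show p • g 3 ∈ _
      rw [P3]; exact (Sg g _).zero_mem
  obtain ⟨c3, c2, -⟩ := card_Sg hp' hR g hg hmono
  have hP2 : ∀ i : Fin 4, p • g i ∈ Sg g 2 := by
    intro i
    fin_cases i
    · show p • g 0 ∈ _
      rw [P0]; exact z2 _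
    · show p • g 1 ∈ _
      rw [P1]; exact z2 _
    · show p • g 2 ∈ _
      rw [P2]; exact (Sg g _).zero_mem
    · show p • g 3 ∈ _
      rw [P3]; exact (Sg g _).zero_mem
  have hM2 : ∀ i j : Fin 4, g i * g j ∈ Sg g 2 := by
    intro i j
    fin_cases i <;> fin_cases j <;>
      simp only [Fin.zero_eta, Fin.mk_one, Fin.reduceFinMk, M00, M01, M02, M03, M10, M11, M12,
        M13, M20, M21, M22, M23, M30, M31, M32, M33] <;>
      first | exact (Sg g 2).zero_mem | exact w2 | exact w3 | exact z2 _
  have hw : g 2 ∈ Dd p (⊤ : AddSubgroup R) := by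
    rw [← M00]; exact Dd_l (AddSubgroup.mem_top _) _
  have hD : Dd p (⊤ : AddSubgroup R) = Sg g 2 := by
    apply le_antisymm
    · rw [← Sg_zero g hg]
      exact Dd_le hg 0 _ (fun i _ => hP2 i) (fun i _ j => hM2 j i) (fun i _ j => hM2 i j)
    · refine Sg_le g 2 _ fun i hi => ?_
      fin_cases i
      · exact absurd hi (by decide)
      · exact absurd hi (by decide)
      · exact hw
      · show g 3 ∈ _
        rw [← M02]; exact Dd_l (AddSubgroup.mem_top _) _
  have hD2 : Dd p (Dd p (⊤ : AddSubgroup R)) = Sg g 3 := by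
    rw [hD]
    apply le_antisymm
    · refine Dd_le hg 2 _ (fun i hi => ?_) (fun i hi j => ?_) (fun i hi j => ?_)
      · fin_cases i
        · exact absurd hi (by decide)
        · exact absurd hi (by decide)
        · show p • g 2 ∈ _
          rw [P2]; exact (Sg g _).zero_mem
        · show p • g 3 ∈ _
          rw [P3]; exact (Sg g _).zero_mem
      · fin_cases i
        · exact absurd hi (by decide)
        · exact absurd hi (by decide)
        all_goals
          fin_cases j <;>
          simp only [Fin.zero_eta, Fin.mk_one, Fin.reduceFinMk, M02, M12, M22, M32, M03, M13,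
            M23, M33] <;>
          first | exact (Sg g 3).zero_mem | exact z3 _ | exact w33
      · fin_cases i
        · exact absurd hi (by decide)
        · exact absurd hi (by decide)
        all_goals
          fin_cases j <;>
          simp only [Fin.zero_eta, Fin.mk_one, Fin.reduceFinMk, M20, M21, M22, M23, M30, M31,
            M32, M33] <;>
          first | exact (Sg g 3).zero_mem | exact z3 _ | exact w33
    · refine Sg_le g 3 _ fun i hi => ?_
      have : i = 3 := by omega
      subst this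
      rw [← M02]
      exact Dd_l w2 _
  refine ⟨by rw [hD, c2], by rw [hD2, c3], ?_⟩
  intro x
  have hx : x ∈ AddSubgroup.closure (Set.range g) := by rw [hg]; trivial
  have hpp : ∀ i : Fin 4, p ^ 2 • g i = 0 := by
    intro i
    rw [pow_two, mul_smul]
    fin_cases i
    · show p • p • g 0 = 0
      rw [P0, smul_comm, P3, smul_zero]
    · show p • p • g 1 = 0
      rw [P1, smul_comm, P3, smul_zero]
    · show p • p • g 2 = 0
      rw [P2, smul_zero]
    · show p • p • g 3 = 0
      rw [P3, smul_zero]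
  induction hx using AddSubgroup.closure_induction with
  | mem y hy => obtain ⟨j, rfl⟩ := hy; exact hpp j
  | zero => rw [smul_zero]
  | add y z _ _ hy hz => rw [smul_add, hy, hz, add_zero]
  | neg y _ hy => rw [smul_neg, hy, neg_zero]

end Pool.NR
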