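import Pool.Agent.H97.NR.Stmts

/-! Tools for the modules `I31, I22, I4A, I4B`: orders of the subgroups generated by the last
generators of a table, and the operation `Dd`. -/

universe u

namespace Pool.NR.H88

variable {p : ℕ} {R : Type u} [NonUnitalRing R]

/-- The subgroup generated by `g_i`, `i ≥ k`. -/
def Sg (g : Fin 4 → R) (k : ℕ) : AddSubgroup R :=
  AddSubgroup.closure {x | ∃ i : Fin 4, k ≤ i.val ∧ x = g i}

theorem mem_Sg (g : Fin 4 → R) {k : ℕ} {i : Fin 4} (h : k ≤ i.val) : g i ∈ Sg g k :=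
  AddSubgroup.subset_closure ⟨i, h, rfl⟩

theorem Sg_le (g : Fin 4 → R) (k : ℕ) (U : AddSubgroup R)
    (h : ∀ i : Fin 4, k ≤ i.val → g i ∈ U) : Sg g k ≤ U := by
  unfold Sg
  rw [AddSubgroup.closure_le]
  rintro x ⟨i, hi, rfl⟩
  exact h i hi

theorem Sg_zero (g : Fin 4 → R) (hg : AddSubgroup.closure (Set.range g) = ⊤) : Sg g 0 = ⊤ := by
  rw [← hg]
  unfold Sg
  congr 1
  ext x
  constructor
  · rintro ⟨i, _, rfl⟩
    exact ⟨i, rfl⟩
  · rintro ⟨i, rfl⟩
    exact ⟨i, Nat.zero_le _, rfl⟩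

theorem Sg_four (g : Fin 4 → R) : Sg g 4 = ⊥ := by
  rw [eq_bot_iff]
  refine Sg_le g 4 _ fun i hi => ?_
  omega

theorem card_step (hp : 0 < p) [Finite R] (H K : AddSubgroup R) (a : R) (ha : p • a ∈ H)
    (hK : K ≤ H ⊔ AddSubgroup.zmultiples a) : Nat.card K ≤ p * Nat.card H := by
  classical
  have h1 : Nat.card K ≤ Nat.card (H ⊔ AddSubgroup.zmultiples a : AddSubgroup R) :=
    Nat.card_le_card_of_injective (AddSubgroup.inclusion hK) (AddSubgroup.inclusion_injective hK)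
  refine h1.trans ?_
  have hmem : ∀ (n : ℕ) (h : H), n • a + (h : R) ∈ H ⊔ AddSubgroup.zmultiples a := by
    intro n h
    refine AddSubgroup.add_mem _ ?_ ?_
    · exact AddSubgroup.mem_sup_right (AddSubgroup.nsmul_mem _ (AddSubgroup.mem_zmultiples a) n)
    · exact AddSubgroup.mem_sup_left h.2
  have hs : Function.Surjective (fun x : Fin p × H =>
      (⟨(x.1 : ℕ) • a + (x.2 : R), hmem x.1 x.2⟩ :
        (H ⊔ AddSubgroup.zmultiples a : AddSubgroup R))) := by
    rintro ⟨y, hy⟩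
    rw [AddSubgroup.mem_sup] at hy
    obtain ⟨h, hh, b, hb, rfl⟩ := hy
    obtain ⟨m, rfl⟩ := AddSubgroup.mem_zmultiples_iff.mp hb
    have hp' : (0 : ℤ) < p := by exact_mod_cast hp
    have h0 : 0 ≤ m % p := Int.emod_nonneg _ hp'.ne'
    have hlt : m % p < p := Int.emod_lt_of_pos _ hp'
    refine ⟨(⟨(m % p).toNat, by omega⟩, ⟨h + (m / p) • (p • a), ?_⟩), ?_⟩
    · exact AddSubgroup.add_mem _ hh (AddSubgroup.zsmul_mem _ ha _)
    · apply Subtype.ext
      show (m % p).toNat • a + (h + (m / p) • (p • a)) = h + m • a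
      have e1 : (m % p).toNat • a = (m % (p : ℤ)) • a := by
        rw [← natCast_zsmul, Int.toNat_of_nonneg h0]
      have e2 : m • a = (m % (p : ℤ)) • a + (m / p) • (p • a) := by
        rw [← natCast_zsmul a p, smul_smul, ← add_smul]
        congr 1
        have := Int.emod_add_mul_ediv m p
        linarith [this, mul_comm (m / (p : ℤ)) (p : ℤ)]
      rw [e1, e2]
      abel
  have h2 := Nat.card_le_card_of_surjective _ hs
  rwa [Nat.card_prod, Nat.card_fin] at h2

/-- Orders of the subgroups generated by the last generators. -/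
theorem card_Sg (hp : p.Prime) (hR : Nat.card R = p ^ 4) (g : Fin 4 → R)
    (hg : AddSubgroup.closure (Set.range g) = ⊤)
    (hP : ∀ i : Fin 4, p • g i ∈ Sg g (i.val + 1)) :
    Nat.card (Sg g 3) = p ∧ Nat.card (Sg g 2) = p ^ 2 ∧ Nat.card (Sg g 1) = p ^ 3 := by
  have hp0 : 0 < p := hp.pos
  have : Finite R := Nat.finite_of_card_ne_zero (by rw [hR]; positivity)
  have step : ∀ i : Fin 4, Nat.card (Sg g i.val) ≤ p * Nat.card (Sg g (i.val + 1)) := by
    intro i
    refine card_step hp0 (Sg g (i.val + 1)) (Sg g i.val) (g i) (hP i) ?_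
    refine Sg_le g _ _ fun j hj => ?_
    rcases Nat.lt_or_ge i.val j.val with h | h
    · exact AddSubgroup.mem_sup_left (mem_Sg g h)
    · have : j = i := Fin.ext (by omega)
      subst this
      exact AddSubgroup.mem_sup_right (AddSubgroup.mem_zmultiples _)
  have s0 := step 0
  have s1 := step 1
  have s2 := step 2
  have s3 := step 3
  simp only [Fin.val_zero, Fin.val_one, Fin.val_two, zero_add] at s0 s1 s2 s3
  have e3 : ((3 : Fin 4) : ℕ) = 3 := rfl
  rw [e3] at s3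
  norm_num at s0 s1 s2 s3
  rw [Sg_four] at s3
  rw [Sg_zero g hg] at s0
  have ht : Nat.card (⊤ : AddSubgroup R) = p ^ 4 := by rw [AddSubgroup.card_top, hR]
  have hb : Nat.card (⊥ : AddSubgroup R) = 1 := AddSubgroup.card_bot
  rw [ht] at s0
  rw [hb, mul_one] at s3
  have u2 : Nat.card (Sg g 2) ≤ p ^ 2 := by nlinarith
  have u1 : Nat.card (Sg g 1) ≤ p ^ 3 := by nlinarith
  have l1 : p ^ 3 ≤ Nat.card (Sg g 1) := by
    have : p * p ^ 3 ≤ p * Nat.card (Sg g 1) := by
      calc p * p ^ 3 = p ^ 4 := by ring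
        _ ≤ _ := s0
    exact Nat.le_of_mul_le_mul_left this hp0
  have l2 : p ^ 2 ≤ Nat.card (Sg g 2) := by
    have : p * p ^ 2 ≤ p * Nat.card (Sg g 2) := by
      calc p * p ^ 2 = p ^ 3 := by ring
        _ ≤ _ := l1.trans s1
    exact Nat.le_of_mul_le_mul_left this hp0
  have l3 : p ≤ Nat.card (Sg g 3) := by
    have : p * p ≤ p * Nat.card (Sg g 3) := by
      calc p * p = p ^ 2 := by ring
        _ ≤ _ := l2.trans s2
    exact Nat.le_of_mul_le_mul_left this hp0
  exact ⟨le_antisymm s3 l3, le_antisymm u2 l2, le_antisymm u1 l1⟩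

theorem left_mem {g : Fin 4 → R} (hg : AddSubgroup.closure (Set.range g) = ⊤)
    (U : AddSubgroup R) (s : R) (h : ∀ j, g j * s ∈ U) (r : R) : r * s ∈ U := by
  have hr : r ∈ AddSubgroup.closure (Set.range g) := by rw [hg]; trivial
  induction hr using AddSubgroup.closure_induction with
  | mem x hx => obtain ⟨j, rfl⟩ := hx; exact h j
  | zero => rw [zero_mul]; exact U.zero_mem
  | add x y _ _ hx hy => rw [add_mul]; exact U.add_mem hx hy
  | neg x _ hx => rw [neg_mul]; exact U.neg_mem hx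

theorem right_mem {g : Fin 4 → R} (hg : AddSubgroup.closure (Set.range g) = ⊤)
    (U : AddSubgroup R) (s : R) (h : ∀ j, s * g j ∈ U) (r : R) : s * r ∈ U := by
  have hr : r ∈ AddSubgroup.closure (Set.range g) := by rw [hg]; trivial
  induction hr using AddSubgroup.closure_induction with
  | mem x hx => obtain ⟨j, rfl⟩ := hx; exact h j
  | zero => rw [mul_zero]; exact U.zero_mem
  | add x y _ _ hx hy => rw [mul_add]; exact U.add_mem hx hy
  | neg x _ hx => rw [mul_neg]; exact U.neg_mem hx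

/-- Upper bound for `Dd`. -/
theorem Dd_le {g : Fin 4 → R} (hg : AddSubgroup.closure (Set.range g) = ⊤) (k : ℕ)
    (U : AddSubgroup R) (h1 : ∀ i : Fin 4, k ≤ i.val → p • g i ∈ U)
    (h2 : ∀ i : Fin 4, k ≤ i.val → ∀ j, g j * g i ∈ U)
    (h3 : ∀ i : Fin 4, k ≤ i.val → ∀ j, g i * g j ∈ U) : Dd p (Sg g k) ≤ U := by
  unfold Dd
  rw [AddSubgroup.closure_le]
  rintro x ⟨s, hs, hx⟩
  have key : p • s ∈ U ∧ (∀ r, r * s ∈ U) ∧ ∀ r, s * r ∈ U := by
    clear hx
    unfold Sg at hs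
    induction hs using AddSubgroup.closure_induction with
    | mem y hy =>
      obtain ⟨i, hi, rfl⟩ := hy
      exact ⟨h1 i hi, left_mem hg U _ (h2 i hi), right_mem hg U _ (h3 i hi)⟩
    | zero =>
      refine ⟨by rw [smul_zero]; exact U.zero_mem, fun r => ?_, fun r => ?_⟩
      · rw [mul_zero]; exact U.zero_mem
      · rw [zero_mul]; exact U.zero_mem
    | add y z _ _ hy hz =>
      refine ⟨by rw [smul_add]; exact U.add_mem hy.1 hz.1, fun r => ?_, fun r => ?_⟩
      · rw [mul_add]; exact U.add_mem (hy.2.1 r) (hz.2.1 r)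
      · rw [add_mul]; exact U.add_mem (hy.2.2 r) (hz.2.2 r)
    | neg y _ hy =>
      refine ⟨by rw [smul_neg]; exact U.neg_mem hy.1, fun r => ?_, fun r => ?_⟩
      · rw [mul_neg]; exact U.neg_mem (hy.2.1 r)
      · rw [neg_mul]; exact U.neg_mem (hy.2.2 r)
  rcases hx with rfl | ⟨r, rfl | rfl⟩
  · exact key.1
  · exact key.2.1 r
  · exact key.2.2 r

theorem Dd_p {S : AddSubgroup R} {s : R} (hs : s ∈ S) : p • s ∈ Dd p S :=
  AddSubgroup.subset_closure ⟨s, hs, Or.inl rfl⟩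

theorem Dd_l {S : AddSubgroup R} {s : R} (hs : s ∈ S) (r : R) : r * s ∈ Dd p S :=
  AddSubgroup.subset_closure ⟨s, hs, Or.inr ⟨r, Or.inl rfl⟩⟩

theorem Dd_r {S : AddSubgroup R} {s : R} (hs : s ∈ S) (r : R) : s * r ∈ Dd p S :=
  AddSubgroup.subset_closure ⟨s, hs, Or.inr ⟨r, Or.inr rfl⟩⟩

/-- If `p z = 0`, `a ≠ 0` in `Z/p` and `a z ∈ S` then `z ∈ S`. -/
theorem mem_of_val_smul [Fact p.Prime] {S : AddSubgroup R} {z : R} (hz : p • z = 0)
    {a : ZMod p} (ha : a ≠ 0) (h : a.val • z ∈ S) : z ∈ S := by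
  have h1 : ((a⁻¹).val * a.val) • z = z := by
    have e : (((a⁻¹).val * a.val : ℕ) : ZMod p) = ((1 : ℕ) : ZMod p) := by
      push_cast
      rw [ZMod.natCast_zmod_val, ZMod.natCast_zmod_val, inv_mul_cancel₀ ha]
    rw [ZMod.natCast_eq_natCast_iff] at e
    have e2 : (((a⁻¹).val * a.val : ℕ) : ℤ) ≡ ((1 : ℕ) : ℤ) [ZMOD (p : ℤ)] :=
      (Int.natCast_modEq_iff).mpr e
    obtain ⟨c, hc⟩ := e2.symm.dvd
    have e3 : (((a⁻¹).val * a.val : ℕ) : ℤ) = 1 + c * p := by
      have : (((a⁻¹).val * a.val : ℕ) : ℤ) - ((1 : ℕ) : ℤ) = p * c := hc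
      push_cast at this ⊢
      linarith
    rw [← natCast_zsmul, e3, add_smul, one_smul, mul_smul, natCast_zsmul, hz, smul_zero, add_zero]
  rw [← h1, mul_smul]
  exact S.nsmul_mem h _

end Pool.NR.H88
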